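import Pool.Agent.Helper264.QRatio

/-!
# Denominators in the ratio `₂φ₁(aq,bq;cq;q,z) / ₂φ₁(a,b;c;q,z)`

The expansion of the ratio gives the exponents of the factors `1 - c q^k` but also factors
`1 - q^k` in the denominator. The Riccati equation of the ratio shows that the latter are not there:
the coefficients have denominators which are products of factors `1 - c q^j`. The two facts are
combined with the fact that `1 - c q^j` is a nonzerodivisor modulo `1 - q^k` in `ℤ[a,b,c,q]`.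
-/

open Finset Pool.Agent.Helper264.QRatio

namespace Pool.Agent.Results.MP_2e34cc_co.Denominators

/-- The coefficients `γ_n` of `₂φ₁(aq,bq;cq;q,z) / ₂φ₁(a,b;c;q,z)`. -/
noncomputable def gam (n : ℕ) : Kf :=
  PowerSeries.coeff n (phi (va * vq) (vb * vq) (vc * vq) vq * (phi va vb vc vq)⁻¹)

/-- **Main result.** `γ_n / (1 - c) = P / ∏_{k=0}^n (1 - c q^k)^⌊(n+1)/(k+1)⌋` for a polynomial `P` in
`a, b, c, q` with integer coefficients. -/
theorem result (n : ℕ) : ∃ P : MvPolynomial (Fin 4) ℤ,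
    gam n / (1 - vc) = algebraMap (MvPolynomial (Fin 4) ℤ) Kf P /
      ∏ k ∈ range (n + 1), (1 - vc * vq ^ k) ^ ((n + 1) / (k + 1)) := by
  have ha : va ∈ (algebraMap R Kf).range := ⟨_, rfl⟩
  have hb : vb ∈ (algebraMap R Kf).range := ⟨_, rfl⟩
  have hc : vc ∈ (algebraMap R Kf).range := ⟨_, rfl⟩
  have hq : vq ∈ (algebraMap R Kf).range := ⟨_, rfl⟩
  have hL : PowerSeries.coeff n (phi (va * vq) (vb * vq) (vc * vq) vq * (phi va vb vc vq)⁻¹) * (1 - vc)⁻¹
      ∈ L (algebraMap R Kf).range vc vq hc hq :=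
    Subring.mul_mem _ (gamma_mem ha hb hc hq hc1 hq1 n) (inv_c_mem ha hb hc hq hc1 hq1)
  obtain ⟨P, hP⟩ := main reg hc hq hq1 (phi va vb vc vq) (phi (va * vq) (vb * vq) (vc * vq) vq) (1 - vc)⁻¹
    (phi_zero _ _ _ _) (phi_mem ha hb hc hq hc1 hq1)
    (phi_mem' (Subring.mul_mem _ ha hq) (Subring.mul_mem _ hb hq) hc hq hc1 hq1) n hL
  refine ⟨P, ?_⟩
  have hne : ∏ k ∈ range (n + 1), ((1 : Kf) - vc * vq ^ k) ^ ((n + 1) / (k + 1)) ≠ 0 :=
    Finset.prod_ne_zero_iff.mpr fun k _ => pow_ne_zero _ (hc1 k)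
  rw [eq_div_iff hne, hP, gam, div_eq_mul_inv]
  ring

end Pool.Agent.Results.MP_2e34cc_co.Denominators
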